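import Pool.Agent.Helper815.Coll.Avg3
import Pool.Agent.Helper815.Coll.Main

/-!
Lower bounds for the constant in a logarithmic bound for 3x+1 total stopping times.
-/

set_option autoImplicit false

namespace Pool.Agent.Results.MP_a1568a_nt.ConstantBound

open scoped ENNReal Topology
open Filter

/-- The `3x+1` function. -/
def T (n : ℕ) : ℕ := if n % 2 = 0 then n / 2 else (3 * n + 1) / 2

open Classical in
/-- The total stopping time `σ_∞(n)`: the least `k ≥ 0` with `T^(k)(n) = 1`, and `∞` if there is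
none. -/
noncomputable def sigma (n : ℕ) : ℕ∞ :=
  if h : ∃ k : ℕ, T^[k] n = 1 then ((Nat.find h : ℕ) : ℕ∞) else ⊤

/-- (1) If `σ_∞(n) ≤ c log n` for all large `n`, then `c ≥ 7.2`.  (2) If `c < 2/log(4/3)`
(`= 6.952...`) then `σ_∞(n) ≤ c log n` fails for almost all `n`: for every `A` and all large `x` it
holds for at most `x/(log x)^A` integers `2 ≤ n ≤ x`. -/
theorem result :
    (∀ (c : ℝ) (N : ℕ),
      (∀ n : ℕ, N ≤ n → (sigma n : ℝ≥0∞) ≤ ENNReal.ofReal (c * Real.log n)) → 36 / 5 ≤ c) ∧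
    (∀ c : ℝ, c < 2 / Real.log (4 / 3) → ∀ A : ℕ, ∀ᶠ x : ℕ in atTop,
      (({n : ℕ | 2 ≤ n ∧ n ≤ x ∧
          (sigma n : ℝ≥0∞) ≤ ENNReal.ofReal (c * Real.log n)}.ncard : ℕ) : ℝ)
        ≤ x / Real.log x ^ A) := by
  classical
  have key : ∀ (c : ℝ) (n : ℕ), 2 ≤ n → (sigma n : ℝ≥0∞) ≤ ENNReal.ofReal (c * Real.log n) →
      ∃ k : ℕ, T^[k] n = 1 ∧ (k : ℝ) ≤ max c 0 * Real.log n := by
    intro c n hn h
    have hlog : 0 ≤ Real.log (n : ℝ) := Real.log_natCast_nonneg n
    unfold sigma at h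
    split_ifs at h with hk
    · refine ⟨Nat.find hk, Nat.find_spec hk, ?_⟩
      rw [ENat.toENNReal_coe, ← ENNReal.ofReal_natCast] at h
      have h2 : ENNReal.ofReal (c * Real.log n) ≤ ENNReal.ofReal (max c 0 * Real.log n) :=
        ENNReal.ofReal_le_ofReal (mul_le_mul_of_nonneg_right (le_max_left _ _) hlog)
      exact (ENNReal.ofReal_le_ofReal_iff (by positivity)).1 (h.trans h2)
    · simp at h
  have hM : 0 < Real.log (4 / 3) := Real.log_pos (by norm_num)
  refine ⟨fun c N h => ?_, fun c hc A => ?_⟩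
  · obtain ⟨n, hn, hn1, hk⟩ := Pool.Agent.Helper815.Coll.main' N
    obtain ⟨k, hk1, hk2⟩ := key c n hn1 (h n hn.le)
    have hlog : 0 < Real.log (n : ℝ) := Real.log_pos (by exact_mod_cast hn1)
    have h3 := hk k hk1
    have h4 : (36 : ℝ) / 5 ≤ max c 0 := le_of_mul_le_mul_right (h3.trans hk2) hlog
    rcases le_max_iff.1 h4 with h5 | h5
    · exact h5
    · norm_num at h5
  · have h0 : max c 0 < 2 / Real.log (4 / 3) := max_lt hc (by positivity)
    obtain ⟨B, hB1, hB2⟩ := exists_between h0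
    obtain ⟨X, hX⟩ := Pool.Agent.Helper815.Coll.core_density (B := B)
      (by rwa [lt_div_iff₀ hM] at hB2) A
    filter_upwards [eventually_ge_atTop X, eventually_ge_atTop 2] with x hx hx2
    have hlog : 0 < Real.log (x : ℝ) := Real.log_pos (by exact_mod_cast hx2)
    rw [le_div_iff₀ (by positivity)]
    refine le_trans (mul_le_mul_of_nonneg_right ?_ (by positivity)) (hX x hx)
    rw [Nat.cast_le, ← Set.ncard_coe_finset]
    refine Set.ncard_le_ncard ?_ (Finset.finite_toSet _)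
    intro n hn
    obtain ⟨h1, h2, h3⟩ := hn
    rw [Finset.mem_coe, Finset.mem_filter, Finset.mem_Icc]
    obtain ⟨k, hk1, hk2⟩ := key c n h1 h3
    have hlogn : 0 < Real.log (n : ℝ) := Real.log_pos (by exact_mod_cast h1)
    exact ⟨⟨by omega, h2⟩, k, hk1, hk2.trans_lt (mul_lt_mul_of_pos_right hB1 hlogn)⟩

end Pool.Agent.Results.MP_a1568a_nt.ConstantBound
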